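import Pool.Agent.P.MP_4830f8_gt.RG.Asm
import Pool.Agent.P.MP_4830f8_gt.RG.Alg
import Pool.Agent.P.MP_4830f8_gt.RG.Ang
import Pool.Agent.P.MP_4830f8_gt.RG.Br
import Pool.Agent.P.MP_4830f8_gt.RG.Cyc
import Pool.Agent.P.MP_4830f8_gt.RG.Dp
import Pool.Agent.P.MP_4830f8_gt.RG.Fact
import Pool.Agent.P.MP_4830f8_gt.RG.Gen
import Pool.Agent.P.MP_4830f8_gt.RG.Gp
import Pool.Agent.P.MP_4830f8_gt.RG.Hyp
import Pool.Agent.P.MP_4830f8_gt.RG.Inv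
import Pool.Agent.P.MP_4830f8_gt.RG.Lnk
import Pool.Agent.P.MP_4830f8_gt.RG.Loc
import Pool.Agent.P.MP_4830f8_gt.RG.Mv
import Pool.Agent.P.MP_4830f8_gt.RG.Mvc
import Pool.Agent.P.MP_4830f8_gt.RG.Nb
import Pool.Agent.P.MP_4830f8_gt.RG.Newt
import Pool.Agent.P.MP_4830f8_gt.RG.Nf3
import Pool.Agent.P.MP_4830f8_gt.RG.Nf4
import Pool.Agent.P.MP_4830f8_gt.RG.Nfi
import Pool.Agent.P.MP_4830f8_gt.RG.Nh
import Pool.Agent.P.MP_4830f8_gt.RG.Node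
import Pool.Agent.P.MP_4830f8_gt.RG.Pk
import Pool.Agent.P.MP_4830f8_gt.RG.Pos
import Pool.Agent.P.MP_4830f8_gt.RG.Prd
import Pool.Agent.P.MP_4830f8_gt.RG.Rank
import Pool.Agent.P.MP_4830f8_gt.RG.Ren
import Pool.Agent.P.MP_4830f8_gt.RG.Rep
import Pool.Agent.P.MP_4830f8_gt.RG.Rkb
import Pool.Agent.P.MP_4830f8_gt.RG.Sem
import Pool.Agent.P.MP_4830f8_gt.RG.Sgn
import Pool.Agent.P.MP_4830f8_gt.RG.Sol
import Pool.Agent.P.MP_4830f8_gt.RG.Spl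
import Pool.Agent.P.MP_4830f8_gt.RG.Tri
import Pool.Agent.P.MP_4830f8_gt.RG.Tvf
import Pool.Agent.P.MP_4830f8_gt.RG.Vec

/-! A closed hyperbolic 3-manifold of rank at most four and Heegaard genus at least five. -/

set_option autoImplicit false

namespace Pool.Agent.Results.MP_4830f8_gt.RankFour

open Pool.Agent.P.MP_4830f8_gt Pool.Agent.P.MP_4830f8_gt.RG

theorem result : ∃ T : Cx, Closed3 T ∧ Hyp T ∧ RankLE T 4 ∧
    ∀ T', Eqv T T' → ∀ g ≤ 4, ¬ Splits g T' :=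
  ASM CYC (HYP POS ANG CYC) DEF (MVC MV SEM) (DP PK (VEC PK))
    (GEN (TVF (CORE LOC)) REN (NFI (CORE LOC)) NF3 NF4 NH NB INV SPL) NUM (TRI BR) (LNK CYC)
    (RKB RANK FACT DEF DH) EXN (SOL EXN NODE NEWT) (ALG REC) (REP FACT DH) PROD COC GP SG

end Pool.Agent.Results.MP_4830f8_gt.RankFour
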